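import Pool.Agent.PCO.StmtsB

/-!
# PCO squad, row PRF: facts on the projection (helper61)
-/

set_option autoImplicit false

open Matrix Filter Topology

namespace Pool.Agent.PCO.H61

open Pool.Agent.PFS Pool.Agent.PFJ Pool.Agent.PCO

variable {n : ℕ} {C : Set (V n)} {Γ : Subgroup (GL (Fin n) ℝ)}

theorem sml_act (h : CC C Γ) {g : GL (Fin n) ℝ} (hg : g ∈ Γ) {s : ℝ} (hs : 0 < s) {v u : V n}
    (hu : Sml C v u) : Sml C (s • act g v) (act g u) := by
  intro x hx τ hτ
  obtain ⟨κ, hκ, h1, h2⟩ := hu (act g⁻¹ x) ((h.act_mem_iff (Γ.inv_mem hg)).2 hx) τ hτ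
  refine ⟨κ / s, by positivity, ?_, ?_⟩
  · have h3 := h.act_cl hg h1
    rwa [CC.act_sub, CC.act_add, CC.act_smul, CC.act_smul, CC.act_act_inv,
      ← div_mul_cancel₀ κ hs.ne', mul_smul] at h3
  · have h3 := h.act_cl hg h2
    rwa [CC.act_add, CC.act_add, CC.act_smul, CC.act_smul, CC.act_act_inv,
      ← div_mul_cancel₀ κ hs.ne', mul_smul] at h3

theorem prf (_hwbf : WbfStmt) (hbf1 : Bf1Stmt) (hsmf : SmfStmt) : PrfStmt := by
  intro n C Γ d h U v hB hd p hp
  have hcc : CC C Γ := h.toCC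
  have hpc : PCone C := hcc.toPCone
  obtain ⟨-, hvcl, -, -, -, -, -, -, hlast⟩ := hbf1 n C Γ hcc h.maxc U v hB
  obtain ⟨-, -, -, s4, s5, s6⟩ := hsmf n C hpc v hvcl
  have hpv : p v = 0 := (hp.ker v).2 s5
  have h2 : ∀ x, p (x - p x) = 0 ∧ Sml C v (x - p x) := fun x => by
    have e : p (x - p x) = 0 := by rw [map_sub, hp.idU _ (hp.mem x), sub_self]
    exact ⟨e, (hp.ker _).1 e⟩
  refine ⟨hpv, h2, ?_, ?_, ?_, ?_, ?_, ?_⟩
  · intro x hx
    refine ⟨hp.mem x, hp.pos x (subset_closure hx), fun z hz => ?_⟩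
    obtain ⟨M, hM, hMx⟩ := hpc.absorb hx z
    refine ⟨M, hM, ?_⟩
    have h3 := hp.pos _ (subset_closure hMx)
    rwa [map_sub, map_smul, hp.idU z hz] at h3
  · intro l z hl hz hlz x
    have hr : LinearMap.range p = U := by
      refine le_antisymm ?_ fun y hy => ⟨y, hp.idU y hy⟩
      rintro _ ⟨y, rfl⟩
      exact hp.mem y
    have hk : Module.finrank ℝ (LinearMap.ker p) = 2 := by
      have h3 := LinearMap.finrank_range_add_finrank_ker p
      rw [hr, hd] at h3
      have h4 : Module.finrank ℝ (V n) = n := Module.finrank_fin_fun ℝ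
      have h5 := h.codim
      omega
    have hli : LinearIndependent ℝ ![l, z] := LinearIndependent.pair_iff.2 hlz
    have hsp : Submodule.span ℝ (Set.range ![l, z]) = LinearMap.ker p := by
      refine Submodule.eq_of_le_of_finrank_eq ?_ ?_
      · rw [Submodule.span_le]
        rintro _ ⟨i, rfl⟩
        fin_cases i
        · exact hl
        · exact hz
      · rw [finrank_span_eq_card hli, hk, Fintype.card_fin]
    have hx : x - p x ∈ Submodule.span ℝ (Set.range ![l, z]) := by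
      rw [hsp]
      exact (h2 x).1
    rw [Submodule.mem_span_range_iff_exists_fun] at hx
    obtain ⟨c, hc⟩ := hx
    rw [Fin.sum_univ_two] at hc
    refine ⟨c 0, c 1, ?_⟩
    have e : x = p x + (x - p x) := by abel
    rw [e, ← hc]
    simp only [Matrix.cons_val_zero, Matrix.cons_val_one]
    have e2 : p (p x + (c 0 • l + c 1 • z)) = p x := by
      rw [map_add, map_add, map_smul, map_smul, hl, hz, hp.idU _ (hp.mem x)]
      simp
    rw [e2]
    abel
  · intro a ha q hq M hM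
    have h3 := hp.pos _ hM
    rw [map_sub, map_smul, map_add, hpv, add_zero, hp.idU a ha.1] at h3
    exact hlast a ha (p q) (hp.mem q) (hp.pos q hq) M h3
  · intro P hPpos hPid hPv
    refine LinearMap.ext fun x => ?_
    have h3 : P (x - p x) = 0 := s6 P hPpos hPv _ (h2 x).2
    rw [map_sub, hPid _ (hp.mem x), sub_eq_zero] at h3
    exact h3
  · intro g hg s hs
    let A : V n →ₗ[ℝ] V n := Matrix.mulVecLin (g : Matrix (Fin n) (Fin n) ℝ)
    let B : V n →ₗ[ℝ] V n := Matrix.mulVecLin ((g⁻¹ : GL (Fin n) ℝ) : Matrix (Fin n) (Fin n) ℝ)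
    let p' : V n →ₗ[ℝ] V n := A.comp (p.comp B)
    have hp' : ∀ x, p' x = act g (p (act g⁻¹ x)) := fun x => rfl
    refine ⟨p', ⟨fun x => mem_img.2 ⟨_, hp.mem _, rfl⟩, fun y hy => ?_, fun x hx => ?_,
      fun x => ?_⟩, fun x => ?_⟩
    · obtain ⟨y0, hy0, rfl⟩ := mem_img.1 hy
      rw [hp', CC.act_inv_act, hp.idU y0 hy0]
    · rw [hp']
      exact hcc.act_cl hg (hp.pos _ (hcc.act_cl (Γ.inv_mem hg) hx))
    · rw [hp']
      constructor
      · intro hx
        have h3 : p (act g⁻¹ x) = 0 := CC.act_injective g (by rw [hx, CC.act_zero])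
        have h4 := sml_act hcc hg hs ((hp.ker _).1 h3)
        rwa [CC.act_act_inv] at h4
      · intro hx
        have h4 := sml_act hcc (Γ.inv_mem hg) (inv_pos.2 hs) hx
        rw [CC.act_smul, CC.act_inv_act, smul_smul, inv_mul_cancel₀ hs.ne', one_smul] at h4
        rw [(hp.ker _).2 h4, CC.act_zero]
    · rw [hp', CC.act_inv_act]
  · intro T U' p' hT hTU hp' x
    have h3 : p' (T (x - p x)) = 0 := (hp'.ker _).2 (s4 T hT _ (h2 x).2)
    rw [map_sub, map_sub, hp'.idU _ (hTU _ (hp.mem x)), sub_eq_zero] at h3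
    exact h3

end Pool.Agent.PCO.H61
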